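import Pool.Agent.Helper24.KK.GoalsA

/-!
# Project KK (MP_9a4587_an), packet DGR: the average row degree
-/

set_option autoImplicit false

namespace Pool.Agent.Helper8.KK

open Finset Pool.Agent.Helper24.KK

open Classical in
/-- The entries of one constraint are determined by their first index. -/
theorem ent_sum_le {Φ Mm : Type} [Fintype Φ] [DecidableEq Φ] {l : ℕ} (u v : ℕ → Mm → Φ)
    (n k : ℕ) (m : Mm) (f : Ix Φ l → ℝ) (hf : ∀ I, 0 ≤ f I) :
    ∑ p ∈ univ.filter (fun p : Ix Φ l × Ix Φ l => Ent u v n k m p.1 p.2), f p.1 ≤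
      ∑ I ∈ univ.filter (fun I : Ix Φ l => (u n m ∈ I.1.1 ∧ u k m ∉ I.1.1) ∧
        (v k m ∈ I.2.1 ∧ v n m ∉ I.2.1)), f I := by
  have hinj : Set.InjOn (Prod.fst : Ix Φ l × Ix Φ l → Ix Φ l)
      (univ.filter (fun p : Ix Φ l × Ix Φ l => Ent u v n k m p.1 p.2) : Finset _) := by
    rintro ⟨I, J⟩ hp ⟨I', J'⟩ hp' h
    rw [mem_coe, mem_filter] at hp hp'
    obtain rfl : I = I' := h
    obtain ⟨-, ⟨-, -, h1⟩, -, -, h2⟩ := hp
    obtain ⟨-, ⟨-, -, h3⟩, -, -, h4⟩ := hp'
    have e1 : J.1 = J'.1 := Subtype.ext (h1.trans h3.symm)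
    have e2 : J.2 = J'.2 := Subtype.ext (h2.trans h4.symm)
    rw [Prod.ext e1 e2]
  rw [← sum_image (f := f) hinj]
  refine sum_le_sum_of_subset_of_nonneg ?_ fun I _ _ => hf I
  intro I hI
  rw [mem_image] at hI
  obtain ⟨p, hp, rfl⟩ := hI
  rw [mem_filter] at hp ⊢
  exact ⟨mem_univ _, ⟨hp.2.1.1, hp.2.1.2.1⟩, hp.2.2.1, hp.2.2.2.1⟩

/-- DGR. -/
theorem dgr (hC : CNT) : DGR := by
  classical
  intro Φ Mm _ _ _ _ l M x u v W Xb hG hl hR n hn k hk m hv
  have hkM : k < M := hk.trans hn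
  have hnu : u n m ≠ u k m := fun h => (Nat.ne_of_gt hk) (hG.uu n hn k hkM m h)
  set p : ℝ := (l : ℝ) / (Fintype.card Φ : ℝ) with hp
  have hp0 : 0 ≤ p := by positivity
  set c : ℝ := ((Fintype.card Φ - 2).choose (l - 1) : ℝ) with hc
  have hc0 : 0 ≤ c := Nat.cast_nonneg _
  let A : Φ → Finset (Sl Φ l) := fun r =>
    univ.filter fun S => u n m ∈ S.1 ∧ u k m ∉ S.1 ∧ r ∈ S.1
  let B : Φ → Finset (Sl Φ l) := fun r =>
    univ.filter fun S => v k m ∈ S.1 ∧ v n m ∉ S.1 ∧ r ∈ S.1
  have hA : ∀ r, ((A r).card : ℝ) ≤ c * ((if r = u n m then 1 else 0) + p) := by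
    intro r
    have h := hC Φ l (u n m) (u k m) r hnu hl hR
    exact (le_of_eq (by simp only [A])).trans (h.trans (le_of_eq (by rfl)))
  have hB : ∀ r, ((B r).card : ℝ) ≤ c * ((if r = v k m then 1 else 0) + p) := by
    intro r
    have h := hC Φ l (v k m) (v n m) r hv hl hR
    exact (le_of_eq (by simp only [B])).trans (h.trans (le_of_eq (by rfl)))
  -- the inner sums
  have hin : ∀ j < M, ∑ m' : Mm, ((A (u n m')).card : ℝ) * ((B (v j m')).card : ℝ) ≤
      c ^ 2 * ((if v j m = v k m then 1 else 0) + (2 * p + (Fintype.card Φ : ℝ) * p ^ 2)) := by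
    intro j hj
    have h1 : ∀ m' : Mm, ((A (u n m')).card : ℝ) * ((B (v j m')).card : ℝ) ≤
        c ^ 2 * ((if m' = m then (if v j m = v k m then 1 else 0) else 0) +
          (if m' = m then p else 0) + p * (if v j m' = v k m then 1 else 0) + p ^ 2) := by
      intro m'
      have ha := hA (u n m')
      have hb := hB (v j m')
      have h2 : ((A (u n m')).card : ℝ) * ((B (v j m')).card : ℝ) ≤
          (c * ((if u n m' = u n m then 1 else 0) + p)) *
            (c * ((if v j m' = v k m then 1 else 0) + p)) :=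
        mul_le_mul ha hb (Nat.cast_nonneg _) ((Nat.cast_nonneg _).trans ha)
      refine h2.trans (le_of_eq ?_)
      by_cases hm : m' = m
      · subst hm
        simp only [if_true]
        split_ifs <;> ring
      · have : u n m' ≠ u n m := fun h => hm (hG.ui n hn h)
        rw [if_neg this, if_neg hm, if_neg hm]
        split_ifs <;> ring
    refine (sum_le_sum fun m' _ => h1 m').trans ?_
    rw [← mul_sum]
    refine mul_le_mul_of_nonneg_left ?_ (by positivity)
    rw [sum_add_distrib, sum_add_distrib, sum_add_distrib, sum_ite_eq' univ m,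
      sum_ite_eq' univ m, if_pos (mem_univ _), if_pos (mem_univ _), ← mul_sum, sum_const,
      nsmul_eq_mul, card_univ]
    have h3 : ∑ m' : Mm, (if v j m' = v k m then (1 : ℝ) else 0) ≤ 1 := by
      rw [← sum_filter, sum_const, nsmul_eq_mul, mul_one]
      have : (univ.filter fun m' : Mm => v j m' = v k m).card ≤ 1 := by
        rw [card_le_one]
        intro a ha b hb
        rw [mem_filter] at ha hb
        exact hG.vi j hj (ha.2.trans hb.2.symm)
      exact_mod_cast this
    have h4 : (Fintype.card Mm : ℝ) ≤ (Fintype.card Φ : ℝ) := by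
      exact_mod_cast Fintype.card_le_of_injective (u n) (hG.ui n hn)
    have h5 : p * ∑ m' : Mm, (if v j m' = v k m then (1 : ℝ) else 0) ≤ p * 1 :=
      mul_le_mul_of_nonneg_left h3 hp0
    have h6 : (Fintype.card Mm : ℝ) * p ^ 2 ≤ (Fintype.card Φ : ℝ) * p ^ 2 :=
      mul_le_mul_of_nonneg_right h4 (by positivity)
    linarith
  -- exchange of the sums
  have hex : ∑ I ∈ univ.filter (fun I : Ix Φ l => (u n m ∈ I.1.1 ∧ u k m ∉ I.1.1) ∧
        (v k m ∈ I.2.1 ∧ v n m ∉ I.2.1)), rdeg x u v n I =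
      ∑ j ∈ range n, |x j| * ∑ m' : Mm, ((A (u n m')).card : ℝ) * ((B (v j m')).card : ℝ) := by
    unfold rdeg
    rw [sum_comm]
    refine sum_congr rfl fun j _ => ?_
    rw [← mul_sum]
    congr 1
    have h7 : ∀ I : Ix Φ l,
        ((univ.filter fun m' : Mm => u n m' ∈ I.1.1 ∧ v j m' ∈ I.2.1).card : ℝ) =
          ∑ m' : Mm, if u n m' ∈ I.1.1 ∧ v j m' ∈ I.2.1 then (1 : ℝ) else 0 := by
      intro I
      rw [← sum_filter, sum_const, nsmul_eq_mul, mul_one]
    simp_rw [h7]
    rw [sum_comm]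
    refine sum_congr rfl fun m' _ => ?_
    rw [← sum_filter, sum_const, nsmul_eq_mul, mul_one, filter_filter, ← Nat.cast_mul,
      ← card_product]
    congr 2
    ext ⟨I1, I2⟩
    simp only [A, B, mem_filter, mem_univ, true_and, mem_product]
    tauto
  have h0 : ∀ I : Ix Φ l, 0 ≤ rdeg x u v n I := fun I =>
    sum_nonneg fun j _ => mul_nonneg (abs_nonneg _) (Nat.cast_nonneg _)
  have hfin : ∑ j ∈ range n, |x j| * ∑ m' : Mm,
      ((A (u n m')).card : ℝ) * ((B (v j m')).card : ℝ) ≤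
        dz (Fintype.card Φ) l * avd (Fintype.card Φ) l W Xb := by
    have h8 : ∀ j ∈ range n, |x j| * ∑ m' : Mm,
        ((A (u n m')).card : ℝ) * ((B (v j m')).card : ℝ) ≤
          c ^ 2 * (|x j| * (if v j m = v k m then 1 else 0) +
            |x j| * (2 * p + (Fintype.card Φ : ℝ) * p ^ 2)) := by
      intro j hj
      have h9 := mul_le_mul_of_nonneg_left (hin j ((mem_range.1 hj).trans hn)) (abs_nonneg (x j))
      refine h9.trans (le_of_eq ?_)
      ring
    refine (sum_le_sum h8).trans ?_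
    rw [← mul_sum, sum_add_distrib, ← sum_mul]
    have hdz : dz (Fintype.card Φ) l = c ^ 2 := rfl
    rw [hdz]
    refine mul_le_mul_of_nonneg_left ?_ (by positivity)
    have h10 : ∑ j ∈ range n, |x j| * (if v j m = v k m then (1 : ℝ) else 0) ≤ W := by
      refine le_trans ?_ (hG.gap m (v k m))
      rw [sum_filter]
      refine (sum_le_sum_of_subset_of_nonneg (range_subset_range.2 hn.le) ?_).trans
        (le_of_eq (sum_congr rfl fun j _ => ?_))
      · intro j _ _
        split_ifs <;> simp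
      · split_ifs <;> simp
    have h11 : ∑ j ∈ range n, |x j| ≤ Xb :=
      (sum_le_sum_of_subset_of_nonneg (range_subset_range.2 hn.le)
        fun j _ _ => abs_nonneg _).trans hG.sx
    have h12 : 0 ≤ 2 * p + (Fintype.card Φ : ℝ) * p ^ 2 := by positivity
    have h13 := mul_le_mul_of_nonneg_right h11 h12
    unfold avd
    rw [← hp]
    linarith
  have h14 := ent_sum_le u v n k m (rdeg x u v n) h0
  calc _ ≤ _ := h14
    _ = _ := hex
    _ ≤ _ := hfin

end Pool.Agent.Helper8.KK
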